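import Pool.Agent.R529.BU.W

/-!
Buchstab's function changes sign around its limit infinitely often.
-/

set_option autoImplicit false

open Filter Topology Set intervalIntegral

namespace Pool.Agent.R529.BU

theorem D_sub (c u v : ℝ) (hv : 2 ≤ v) (hu : 2 ≤ u) :
    u * (om u - c) - v * (om v - c) = ∫ s in (v - 1)..(u - 1), (om s - c) := by
  have h1 := WW_sub u v hv hu
  rw [integral_sub (om_cont.intervalIntegrable _ _) intervalIntegrable_const, ← h1, integral_const, smul_eq_mul]
  unfold WW
  ring

/-- vanishing goes down -/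
theorem down (c B : ℝ) (hB : 2 ≤ B) (h : ∀ u, B ≤ u → om u = c) : ∀ u, B - 1 ≤ u → om u = c := by
  have hcont : Continuous (fun s => om s - c) := om_cont.sub continuous_const
  set F : ℝ → ℝ := fun x => ∫ s in (B - 1)..x, (om s - c) with hF
  have hF0 : ∀ x, B - 1 ≤ x → F x = 0 := by
    intro x hx
    have h1 := D_sub c (x + 1) B hB (by linarith)
    rw [h (x + 1) (by linarith), h B le_rfl, sub_self, mul_zero, mul_zero, sub_zero] at h1
    simp only [hF]
    rw [h1]
    congr 1
    ring
  intro u hu
  have hd : HasDerivAt F (om u - c) u :=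
    integral_hasDerivAt_right (hcont.intervalIntegrable _ _) (hcont.stronglyMeasurableAtFilter _ _) hcont.continuousAt
  have h2 : HasDerivWithinAt F (om u - c) (Ici u) u := hd.hasDerivWithinAt
  have h3 : HasDerivWithinAt F 0 (Ici u) u := by
    have h4 : HasDerivWithinAt (fun _ : ℝ => (0 : ℝ)) 0 (Ici u) u := hasDerivWithinAt_const _ _ _
    exact h4.congr (fun x hx => hF0 x (hu.trans hx)) (hF0 u hu)
  have h5 := (uniqueDiffWithinAt_Ici u).eq_deriv (Ici u) h2 h3
  linarith

theorem down_nat (c : ℝ) (k : ℕ) : ∀ B : ℝ, B ≤ k + 1 → 1 ≤ B → (∀ u, B ≤ u → om u = c) → ∀ u, 1 ≤ u → om u = c := by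
  induction k with
  | zero =>
    intro B h1 h2 h3 u hu
    apply h3
    push_cast at h1
    linarith
  | succ k ih =>
    intro B h1 h2 h3
    push_cast at h1
    rcases le_total B 2 with h | h
    · have h4 : ∀ u, (2 : ℝ) ≤ u → om u = c := fun u hu => h3 u (by linarith)
      have h5 := down c 2 le_rfl h4
      intro u hu
      exact h5 u (by linarith)
    · exact ih (B - 1) (by linarith) (by linarith) (down c B h h3)

theorem not_const (c B : ℝ) (h : ∀ u, B ≤ u → om u = c) : False := by
  obtain ⟨k, hk⟩ := exists_nat_ge (max 1 B)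
  have h1 := down_nat c k (max 1 B) (by linarith) (le_max_left _ _) (fun u hu => h u ((le_max_right _ _).trans hu))
  have h2 := h1 1 le_rfl
  have h3 := h1 2 (by norm_num)
  have h4 := om_one_two 1 le_rfl (by norm_num)
  have h5 := om_one_two 2 (by norm_num) le_rfl
  rw [h2] at h4
  rw [h3] at h5
  linarith

theorem sign_aux (c σ A : ℝ) (hlim : Tendsto (fun n : ℕ => (n : ℝ) * (om n - c)) atTop (𝓝 0)) (hσ : σ ≠ 0)
    (h : ∀ u, A ≤ u → 0 ≤ σ * (om u - c)) : False := by
  set B : ℝ := max 2 (A + 1) with hB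
  have hB2 : 2 ≤ B := le_max_left _ _
  have hBA : A + 1 ≤ B := le_max_right _ _
  apply not_const c B
  intro v hv
  have hmono : ∀ u, v ≤ u → σ * (v * (om v - c)) ≤ σ * (u * (om u - c)) := by
    intro u hu
    have h1 := D_sub c u v (by linarith) (by linarith)
    have h2 : 0 ≤ ∫ s in (v - 1)..(u - 1), σ * (om s - c) := by
      apply integral_nonneg (by linarith)
      intro s hs
      exact h s (by linarith [hs.1])
    rw [integral_const_mul, ← h1] at h2
    linarith
  have hlim2 : Tendsto (fun n : ℕ => σ * ((n : ℝ) * (om n - c))) atTop (𝓝 0) := by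
    simpa using hlim.const_mul σ
  have h3 : σ * (v * (om v - c)) ≤ 0 := by
    apply ge_of_tendsto hlim2
    filter_upwards [eventually_ge_atTop ⌈v⌉₊] with n hn
    exact hmono n ((Nat.le_ceil v).trans (by exact_mod_cast hn))
  have h4 := h v (by linarith)
  have h5 : σ * (om v - c) = 0 := by
    apply le_antisymm _ h4
    by_contra h6
    push Not at h6
    have : 0 < v * (σ * (om v - c)) := mul_pos (by linarith) h6
    linarith
  rcases mul_eq_zero.1 h5 with h6 | h6
  · exact absurd h6 hσ
  · linarith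

theorem sign_lt (c A : ℝ) (hlim : Tendsto (fun n : ℕ => (n : ℝ) * (om n - c)) atTop (𝓝 0)) :
    ∃ u, A ≤ u ∧ om u < c := by
  by_contra h
  push Not at h
  exact sign_aux c 1 A hlim one_ne_zero fun u hu => by linarith [h u hu]

theorem sign_gt (c A : ℝ) (hlim : Tendsto (fun n : ℕ => (n : ℝ) * (om n - c)) atTop (𝓝 0)) :
    ∃ u, A ≤ u ∧ c < om u := by
  by_contra h
  push Not at h
  exact sign_aux c (-1) A hlim (by norm_num) fun u hu => by linarith [h u hu]

end Pool.Agent.R529.BU
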