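import Pool.Agent.R529.BU.Step
import Pool.Agent.R529.BU.Sign
import Pool.Agent.Y829.RZ3

/-!
Buchstab's function tends to `e ^ (-γ)`, faster than `1 / u`.
-/

set_option autoImplicit false

open Finset Filter Topology
open Pool.Agent.H510R2.Maier Pool.Agent.R529.LD

namespace Pool.Agent.R529.BU

theorem VZ_eq (z : ℕ) (hz : 1 ≤ z) : Pool.Agent.W89.Sv.VZ 1 z = QQ (z - 1) := by
  unfold Pool.Agent.W89.Sv.VZ QQ
  apply Finset.prod_congr _ fun _ _ => rfl
  ext p
  rw [Pool.Agent.W89.Sv.mem_PP, Finset.mem_filter, Finset.mem_Icc]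
  constructor
  · rintro ⟨h1, h2, _⟩
    exact ⟨⟨h2.one_lt.le, by omega⟩, h2⟩
  · rintro ⟨⟨h1, h2⟩, h3⟩
    exact ⟨by omega, h3, fun h => h3.one_lt.ne' (Nat.dvd_one.1 h)⟩

theorem sift_eq (z U : ℕ) (hz : 1 ≤ z) :
    Pool.Agent.W89.Sv.sift 1 (Icc 1 U) (fun h => 0 + h) 1 z = ((RR (U : ℝ) ((z : ℝ) - 1)).card : ℝ) := by
  classical
  unfold Pool.Agent.W89.Sv.sift
  congr 2
  ext m
  rw [Finset.mem_filter, mem_RR, Finset.mem_Icc, Nat.floor_natCast]
  simp only [zero_add]
  constructor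
  · rintro ⟨h1, _, h2⟩
    refine ⟨h1, fun p hp hd => ?_⟩
    by_contra hcon
    push Not at hcon
    have h3 : p < z := by
      have : (p : ℝ) < z := by linarith
      exact_mod_cast this
    have h4 := Pool.Agent.W89.Sv.dvd_PZ (m := 1) hp h3 (fun h => hp.one_lt.ne' (Nat.dvd_one.1 h))
    exact Nat.not_coprime_of_dvd_of_dvd hp.one_lt hd h4 h2
  · rintro ⟨h1, h2⟩
    refine ⟨h1, one_dvd _, ?_⟩
    rw [Nat.coprime_iff_gcd_eq_one]
    by_contra hcon
    obtain ⟨p, hp, hpd⟩ := Nat.exists_prime_and_dvd hcon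
    have h3 := h2 p hp (hpd.trans (Nat.gcd_dvd_left _ _))
    have h4 := (Pool.Agent.W89.Sv.prime_dvd_PZ hp (hpd.trans (Nat.gcd_dvd_right _ _))).1
    have h5 : p + 1 ≤ z := h4
    have h6 : (p : ℝ) + 1 ≤ z := by exact_mod_cast h5
    linarith

/-- the limit of the product -/
theorem VZ_lim : Tendsto (fun z : ℕ => Pool.Agent.W89.Sv.VZ 1 z * Real.log z) atTop
    (𝓝 (Real.exp (-Real.eulerMascheroniConstant))) := by
  have h0 : Tendsto (fun z : ℕ => ((z : ℝ) - 1)) atTop atTop :=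
    tendsto_atTop_add_const_right _ _ tendsto_natCast_atTop_atTop
  have h1 := QQ_real.comp h0
  have h2 : Tendsto (fun z : ℕ => Real.log z / Real.log ((z : ℝ) - 1)) atTop (𝓝 1) := by
    have h3 : Tendsto (fun x : ℝ => Real.log (x + 1) - Real.log x) atTop (𝓝 0) := by
      have := Real.tendsto_log_comp_add_sub_log 1
      simpa using this
    have h4 := (h3.comp h0).mul ((Real.tendsto_log_atTop.comp h0).inv_tendsto_atTop)
    rw [mul_zero] at h4
    have h5 := h4.const_add 1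
    rw [add_zero] at h5
    refine h5.congr' ?_
    filter_upwards [eventually_ge_atTop 3] with z hz
    have h6 : (3 : ℝ) ≤ z := by exact_mod_cast hz
    have h7 : 0 < Real.log ((z : ℝ) - 1) := Real.log_pos (by linarith)
    simp only [Function.comp, sub_add_cancel, Pi.inv_apply]
    field_simp
    ring
  have h3 := (h1.inv₀ (Real.exp_pos _).ne').mul h2
  rw [mul_one, ← Real.exp_neg] at h3
  refine h3.congr' ?_
  filter_upwards [eventually_ge_atTop 3] with z hz
  have h6 : (3 : ℝ) ≤ z := by exact_mod_cast hz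
  have h7 : 0 < Real.log ((z : ℝ) - 1) := Real.log_pos (by linarith)
  simp only [Function.comp]
  have h8 : ⌊(z : ℝ) - 1⌋₊ = z - 1 := by
    rw [← Nat.cast_one, ← Nat.cast_sub (by omega), Nat.floor_natCast]
  rw [h8, VZ_eq z (by omega)]
  have h9 := QQ_pos (z - 1)
  field_simp

/-- the value of Buchstab's function at an integer as a limit -/
theorem om_lim (s : ℕ) (hs : 2 ≤ s) : Tendsto (fun z : ℕ =>
    ((RR (((z ^ s : ℕ) : ℝ)) ((z : ℝ) - 1)).card : ℝ) * Real.log z / (z : ℝ) ^ s) atTop (𝓝 (om s)) := by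
  have hs2 : (2 : ℝ) ≤ s := by exact_mod_cast hs
  have h0 : Tendsto (fun z : ℕ => ((z : ℝ) - 1)) atTop atTop :=
    tendsto_atTop_add_const_right _ _ tendsto_natCast_atTop_atTop
  have hr : Tendsto (fun z : ℕ => s * Real.log z / Real.log ((z : ℝ) - 1)) atTop (𝓝 s) := by
    have h3 : Tendsto (fun x : ℝ => Real.log (x + 1) - Real.log x) atTop (𝓝 0) := by
      have := Real.tendsto_log_comp_add_sub_log 1
      simpa using this
    have h4 := (h3.comp h0).mul ((Real.tendsto_log_atTop.comp h0).inv_tendsto_atTop)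
    rw [mul_zero] at h4
    have h5 := (h4.const_add 1).const_mul (s : ℝ)
    rw [add_zero, mul_one] at h5
    refine h5.congr' ?_
    filter_upwards [eventually_ge_atTop 3] with z hz
    have h6 : (3 : ℝ) ≤ z := by exact_mod_cast hz
    have h7 : 0 < Real.log ((z : ℝ) - 1) := Real.log_pos (by linarith)
    simp only [Function.comp, sub_add_cancel, Pi.inv_apply]
    field_simp
    ring
  have hW : Tendsto (fun z : ℕ => WW (s * Real.log z / Real.log ((z : ℝ) - 1))) atTop (𝓝 (WW s)) :=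
    (WW_cont.tendsto _).comp hr
  have hmain : Tendsto (fun z : ℕ => ((RR (((z ^ s : ℕ) : ℝ)) ((z : ℝ) - 1)).card : ℝ) * (s * Real.log z) / (z : ℝ) ^ s)
      atTop (𝓝 (WW s)) := by
    rw [Metric.tendsto_atTop]
    intro ε hε
    obtain ⟨z0, hz0⟩ := QA_all (s + 1) (by omega) (1 / 2) (ε / 4) (by norm_num) (by positivity)
    have e1 := (Metric.tendsto_nhds.1 hW) (ε / 2) (by positivity)
    have e2 := h0.eventually_ge_atTop z0
    -- `z ^ s ≤ (z - 1) ^ (s + 1)`
    have e3 : ∀ᶠ z : ℕ in atTop, s * Real.log z / Real.log ((z : ℝ) - 1) < s + 1 :=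
      hr.eventually_lt_const (by linarith)
    obtain ⟨N, hN⟩ := eventually_atTop.1 ((e1.and e2).and (e3.and (eventually_ge_atTop 3)))
    refine ⟨N, fun z hz => ?_⟩
    obtain ⟨⟨h1, h2⟩, h3, h4⟩ := hN z hz
    have h6 : (3 : ℝ) ≤ z := by exact_mod_cast h4
    have h7 : 0 < Real.log ((z : ℝ) - 1) := Real.log_pos (by linarith)
    have h8 : Real.log (((z ^ s : ℕ) : ℝ)) = s * Real.log z := by push_cast; rw [Real.log_pow]
    have h9 : (0 : ℝ) < (z : ℝ) ^ s := by positivity
    have h10 := hz0 ((z : ℝ) - 1) h2 (((z ^ s : ℕ) : ℝ)) (by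
      push_cast
      calc ((z : ℝ) - 1) ^ (1 + 1 / 2 : ℝ) ≤ (z : ℝ) ^ (1 + 1 / 2 : ℝ) :=
            Real.rpow_le_rpow (by linarith) (by linarith) (by norm_num)
        _ ≤ (z : ℝ) ^ (s : ℝ) := Real.rpow_le_rpow_of_exponent_le (by linarith) (by linarith)
        _ = (z : ℝ) ^ s := Real.rpow_natCast _ _) (by
      rw [← Real.log_le_log_iff (by push_cast; positivity) (by
        apply Real.rpow_pos_of_pos; linarith), Real.log_rpow (by linarith), h8]
      rw [div_lt_iff₀ h7] at h3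
      push_cast
      exact h3.le)
    rw [h8] at h10
    rw [Real.dist_eq] at h1 ⊢
    push_cast at h10 ⊢
    set c := ((RR ((z : ℝ) ^ s) ((z : ℝ) - 1)).card : ℝ) with hc
    set w := WW (s * Real.log z / Real.log ((z : ℝ) - 1)) with hw
    have h11 : c * (s * Real.log z) / (z : ℝ) ^ s - w = (c * (s * Real.log z) - (z : ℝ) ^ s * w) / (z : ℝ) ^ s := by
      field_simp
    have h12 : |c * (s * Real.log z) / (z : ℝ) ^ s - w| ≤ ε / 4 := by
      rw [h11, abs_div, abs_of_pos h9, div_le_iff₀ h9]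
      exact h10
    calc |c * (s * Real.log z) / (z : ℝ) ^ s - WW s|
        ≤ |c * (s * Real.log z) / (z : ℝ) ^ s - w| + |w - WW s| := abs_sub_le _ _ _
      _ < ε / 4 + ε / 2 := by linarith
      _ < ε := by linarith
  have h5 := hmain.div_const (s : ℝ)
  have h6 : WW s / s = om s := by
    unfold WW
    field_simp
  rw [h6] at h5
  refine h5.congr fun z => ?_
  field_simp

theorem om_near (s : ℕ) (hs : 2 ≤ s) (E : ℝ) (hE0 : 0 ≤ E) (hE : Pool.Agent.Y829.RZ.WA (s : ℝ) E) :
    |om s - Real.exp (-Real.eulerMascheroniConstant)| ≤ E * Real.exp (-Real.eulerMascheroniConstant) := by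
  set c := Real.exp (-Real.eulerMascheroniConstant) with hc
  have hc0 : 0 < c := Real.exp_pos _
  have key : ∀ ε : ℝ, 0 < ε → |om s - c| ≤ (E + ε) * c := by
    intro ε hε
    obtain ⟨z0, hz0⟩ := hE ε hε
    have h1 : Tendsto (fun z : ℕ => |((RR (((z ^ s : ℕ) : ℝ)) ((z : ℝ) - 1)).card : ℝ) * Real.log z / (z : ℝ) ^ s -
        Pool.Agent.W89.Sv.VZ 1 z * Real.log z|) atTop (𝓝 |om s - c|) := ((om_lim s hs).sub VZ_lim).abs
    have h2 : Tendsto (fun z : ℕ => (E + ε) * (Pool.Agent.W89.Sv.VZ 1 z * Real.log z)) atTop (𝓝 ((E + ε) * c)) :=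
      VZ_lim.const_mul _
    refine le_of_tendsto_of_tendsto h1 h2 ?_
    filter_upwards [eventually_ge_atTop (max 2 z0)] with z hz
    have hz2 : 2 ≤ z := (le_max_left _ _).trans hz
    have hz1 : (2 : ℝ) ≤ z := by exact_mod_cast hz2
    have hl := Real.log_pos (show (1 : ℝ) < z by linarith)
    have h9 : (0 : ℝ) < (z : ℝ) ^ s := by positivity
    have h3 := hz0 z ((le_max_right _ _).trans hz) 0 (z ^ s) 1 one_pos (Nat.coprime_one_left _) (by
      push_cast
      rw [div_one, Real.rpow_natCast])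
    rw [sift_eq z (z ^ s) (by omega), Nat.cast_one, div_one] at h3
    push_cast at h3 ⊢
    set a := ((RR ((z : ℝ) ^ s) ((z : ℝ) - 1)).card : ℝ) with ha
    set V := Pool.Agent.W89.Sv.VZ 1 z with hV
    have h4 : a * Real.log z / (z : ℝ) ^ s - V * Real.log z = (a - (z : ℝ) ^ s * V) * (Real.log z / (z : ℝ) ^ s) := by
      field_simp
    rw [h4, abs_mul, abs_of_pos (show 0 < Real.log z / (z : ℝ) ^ s by positivity)]
    calc |a - (z : ℝ) ^ s * V| * (Real.log z / (z : ℝ) ^ s)
        ≤ ((E + ε) * ((z : ℝ) ^ s * V)) * (Real.log z / (z : ℝ) ^ s) := mul_le_mul_of_nonneg_right h3 (by positivity)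
      _ = _ := by field_simp
  apply le_of_forall_pos_le_add
  intro η hη
  have := key (η / c) (by positivity)
  calc |om s - c| ≤ (E + η / c) * c := this
    _ = E * c + η := by field_simp

theorem om_tendsto : Tendsto (fun n : ℕ => (n : ℝ) * (om n - Real.exp (-Real.eulerMascheroniConstant))) atTop (𝓝 0) := by
  set c := Real.exp (-Real.eulerMascheroniConstant) with hc
  have hc0 : 0 < c := Real.exp_pos _
  obtain ⟨B, κ, hB, hκ, h⟩ := Pool.Agent.Y829.RZ.fl
  have h1 := (FloorSemiring.tendsto_pow_div_factorial_atTop κ).const_mul (B * κ * c)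
  rw [mul_zero] at h1
  rw [← tendsto_add_atTop_iff_nat 1]
  apply squeeze_zero_norm' _ h1
  filter_upwards [eventually_ge_atTop 1] with n hn
  have h2 := om_near (n + 1) (by omega) (B * κ ^ (n + 1) / ((n + 1).factorial : ℝ)) (by positivity) (h (n + 1) (by omega))
  rw [← hc] at h2
  have h3 : (((n + 1 : ℕ)).factorial : ℝ) = (n + 1) * (n.factorial : ℝ) := by
    rw [Nat.factorial_succ]; push_cast; ring
  have h4 : (0 : ℝ) < n.factorial := by exact_mod_cast n.factorial_pos
  rw [Real.norm_eq_abs, abs_mul, abs_of_nonneg (show (0 : ℝ) ≤ ((n + 1 : ℕ) : ℝ) from Nat.cast_nonneg _)]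
  calc ((n + 1 : ℕ) : ℝ) * |om ((n + 1 : ℕ) : ℝ) - c|
      ≤ ((n + 1 : ℕ) : ℝ) * (B * κ ^ (n + 1) / ((n + 1).factorial : ℝ) * c) := by gcongr
    _ = B * κ * c * (κ ^ n / (n.factorial : ℝ)) := by
        rw [h3]
        push_cast
        field_simp
        ring

/-- Buchstab's function is infinitely often less than its limit -/
theorem om_lt (A : ℝ) : ∃ u, A ≤ u ∧ om u < Real.exp (-Real.eulerMascheroniConstant) := sign_lt _ A om_tendsto

/-- Buchstab's function is infinitely often greater than its limit -/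
theorem om_gt (A : ℝ) : ∃ u, A ≤ u ∧ Real.exp (-Real.eulerMascheroniConstant) < om u := sign_gt _ A om_tendsto

end Pool.Agent.R529.BU
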