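import Pool.Agent.R529.BU.Step
import Pool.Agent.R529.BU.Rows
import Pool.Agent.R529.LD.Fin

/-!
The number of survivors, by Buchstab's function.
-/

set_option autoImplicit false

open Finset Filter Topology
open Pool.Agent.H510R2.Maier Pool.Agent.H510R2.Maier.G Pool.Agent.H378R2
open Pool.Agent.R529.LD (small_lt small_gt ev_rpow ev_main DD floor_eq DD_ev tendsto_z' natlog_ev BE_le QQ_lim)

namespace Pool.Agent.R529.BU

/-- `log Y / log L → t` -/
theorem log_ratio (t : ℝ) (Yf : ℝ → ℕ) (hY : Tendsto (fun L : ℝ => (Yf L : ℝ) / L ^ t) atTop (𝓝 1)) :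
    Tendsto (fun L : ℝ => Real.log (Yf L) / Real.log L) atTop (𝓝 t) := by
  have h1 : Tendsto (fun L : ℝ => Real.log ((Yf L : ℝ) / L ^ t)) atTop (𝓝 0) := by
    have := ((Real.continuousAt_log one_ne_zero).tendsto).comp hY
    rw [Real.log_one] at this
    exact this
  have h2 := (h1.mul (Real.tendsto_log_atTop.inv_tendsto_atTop)).add_const t
  rw [zero_mul, zero_add] at h2
  refine h2.congr' ?_
  have h3 := hY.eventually_const_lt (show (1 / 2 : ℝ) < 1 by norm_num)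
  filter_upwards [h3, eventually_gt_atTop (1 : ℝ)] with L h4 h5
  have hL0 : 0 < L := by linarith
  have hl := Real.log_pos h5
  have hLt : 0 < L ^ t := by positivity
  rw [lt_div_iff₀ hLt] at h4
  have hY0 : (0 : ℝ) < Yf L := by linarith
  simp only [Pi.inv_apply]
  rw [Real.log_div hY0.ne' hLt.ne', Real.log_rpow hL0]
  field_simp
  ring

/-- the asymptotic formula for the main set -/
theorem RR_asym (t θ δ : ℝ) (hθ : 0 < θ) (hθt : θ < t) (hδ : 0 < δ) (Yf : ℝ → ℕ)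
    (hY : Tendsto (fun L : ℝ => (Yf L : ℝ) / L ^ t) atTop (𝓝 1)) :
    ∀ᶠ L : ℝ in atTop,
      (om (t / θ) / θ - δ) * (L ^ t / Real.log L) ≤ ((RR (Yf L) (⌊1 / 4 * L ^ θ⌋₊ : ℕ)).card : ℝ) ∧
      ((RR (Yf L) (⌊1 / 4 * L ^ θ⌋₊ : ℕ)).card : ℝ) ≤ (om (t / θ) / θ + δ) * (L ^ t / Real.log L) := by
  have ht : 0 < t := by linarith
  have hu1 : 1 < t / θ := by rw [lt_div_iff₀ hθ]; linarith
  obtain ⟨n, hn⟩ := exists_nat_gt (max 2 (t / θ))
  have hn1 : t / θ < n := (le_max_right _ _).trans_lt hn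
  have hn2 : 2 ≤ n := by
    have : (2 : ℝ) < n := (le_max_left _ _).trans_lt hn
    have : (2 : ℕ) < n := by exact_mod_cast this
    omega
  set η : ℝ := (t / θ - 1) / 2 with hη
  have hη0 : 0 < η := by rw [hη]; linarith
  have hlogY := log_ratio t Yf hY
  have hlogz := tlogfloor (1 / 4) θ (by norm_num) hθ
  -- the quotient
  have hq : Tendsto (fun L : ℝ => Real.log (Yf L) / Real.log (⌊1 / 4 * L ^ θ⌋₊ : ℕ)) atTop (𝓝 (t / θ)) := by
    have h1 := hlogY.div hlogz hθ.ne'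
    refine h1.congr' ?_
    filter_upwards [eventually_gt_atTop (1 : ℝ)] with L hL
    have := Real.log_pos hL
    simp only [Pi.div_apply]
    field_simp
  have hW : Tendsto (fun L : ℝ => WW (Real.log (Yf L) / Real.log (⌊1 / 4 * L ^ θ⌋₊ : ℕ))) atTop (𝓝 (WW (t / θ))) :=
    (WW_cont.tendsto _).comp hq
  have hWv : WW (t / θ) / t = om (t / θ) / θ := by
    unfold WW
    field_simp
  -- the combined limits
  set δ' : ℝ := min 1 (δ * t / 4) with hδ'
  have hδ'0 : 0 < δ' := by positivity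
  obtain ⟨z0, hz0⟩ := QA_all n hn2 η δ' hη0 hδ'0
  have hl1 : Tendsto (fun L : ℝ => ((Yf L : ℝ) / L ^ t) * (WW (Real.log (Yf L) / Real.log (⌊1 / 4 * L ^ θ⌋₊ : ℕ)) + δ') *
      (Real.log (Yf L) / Real.log L)⁻¹) atTop (𝓝 (1 * (WW (t / θ) + δ') * t⁻¹)) :=
    (hY.mul (hW.add_const δ')).mul (hlogY.inv₀ ht.ne')
  have hl2 : Tendsto (fun L : ℝ => ((Yf L : ℝ) / L ^ t) * (WW (Real.log (Yf L) / Real.log (⌊1 / 4 * L ^ θ⌋₊ : ℕ)) - δ') *
      (Real.log (Yf L) / Real.log L)⁻¹) atTop (𝓝 (1 * (WW (t / θ) - δ') * t⁻¹)) :=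
    (hY.mul (hW.sub_const δ')).mul (hlogY.inv₀ ht.ne')
  have hb : δ' * t⁻¹ ≤ δ / 4 := by
    rw [← div_eq_mul_inv, div_le_iff₀ ht]
    have := min_le_right 1 (δ * t / 4)
    linarith
  have hd1 : 1 * (WW (t / θ) + δ') * t⁻¹ < om (t / θ) / θ + δ := by
    have : 1 * (WW (t / θ) + δ') * t⁻¹ = WW (t / θ) / t + δ' * t⁻¹ := by ring
    rw [this, hWv]
    linarith
  have hd2 : om (t / θ) / θ - δ < 1 * (WW (t / θ) - δ') * t⁻¹ := by
    have : 1 * (WW (t / θ) - δ') * t⁻¹ = WW (t / θ) / t - δ' * t⁻¹ := by ring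
    rw [this, hWv]
    linarith
  have e0 : ∀ᶠ L : ℝ in atTop, z0 ≤ ((⌊1 / 4 * L ^ θ⌋₊ : ℕ) : ℝ) := by
    filter_upwards [(tendsto_z' θ hθ).eventually_ge_atTop ⌈z0⌉₊] with L hL
    exact (Nat.le_ceil z0).trans (by exact_mod_cast hL)
  filter_upwards [hl1.eventually_lt_const hd1, hl2.eventually_const_lt hd2, e0,
    hq.eventually (Ioo_mem_nhds (show 1 + η < t / θ by rw [hη]; linarith) hn1),
    (tendsto_z' θ hθ).eventually_ge_atTop 2, hY.eventually_const_lt (show (1 / 2 : ℝ) < 1 by norm_num),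
    eventually_gt_atTop (1 : ℝ), (tendsto_rpow_atTop ht).eventually_ge_atTop 4] with L g1 g2 g3 g4 g5 g6 g7 g8
  have hL0 : 0 < L := by linarith
  have hl := Real.log_pos g7
  have hLt : 0 < L ^ t := by positivity
  rw [lt_div_iff₀ hLt] at g6
  set z := ⌊1 / 4 * L ^ θ⌋₊ with hz
  have hz2 : (2 : ℝ) ≤ z := by exact_mod_cast g5
  have hlz : 0 < Real.log z := Real.log_pos (by linarith)
  have hY2 : (2 : ℝ) ≤ Yf L := by linarith
  have hlY : 0 < Real.log (Yf L) := Real.log_pos (by linarith)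
  obtain ⟨g41, g42⟩ := g4
  rw [lt_div_iff₀ hlz] at g41
  rw [div_lt_iff₀ hlz] at g42
  have h1 := hz0 z g3 (Yf L) (by
    rw [← Real.log_le_log_iff (by positivity) (by linarith), Real.log_rpow (by linarith)]
    exact g41.le) (by
    rw [← Real.log_le_log_iff (by linarith) (by positivity), Real.log_rpow (by linarith)]
    exact g42.le)
  set w := WW (Real.log (Yf L) / Real.log z) with hw
  set C := ((RR (Yf L) z).card : ℝ) with hC
  obtain ⟨h2, h3⟩ := abs_le.1 h1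
  have h4 : (Yf L : ℝ) / L ^ t * (w + δ') * (Real.log (Yf L) / Real.log L)⁻¹ =
      (Yf L * (w + δ') / Real.log (Yf L)) / (L ^ t / Real.log L) := by field_simp
  have h5 : (Yf L : ℝ) / L ^ t * (w - δ') * (Real.log (Yf L) / Real.log L)⁻¹ =
      (Yf L * (w - δ') / Real.log (Yf L)) / (L ^ t / Real.log L) := by field_simp
  have hM : 0 < L ^ t / Real.log L := by positivity
  rw [h4, div_lt_iff₀ hM] at g1
  rw [h5, lt_div_iff₀ hM] at g2
  constructor
  · refine g2.le.trans ?_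
    rw [div_le_iff₀ hlY]
    linarith
  · refine le_trans ?_ g1.le
    rw [le_div_iff₀ hlY]
    linarith

/-- the crude bound -/
theorem RR_crude (n : ℕ) (hn : 2 ≤ n) : ∃ z0 : ℝ, ∀ z : ℝ, z0 ≤ z → ∀ x : ℝ, 0 ≤ x → x ≤ z ^ (n : ℝ) →
    ((RR x z).card : ℝ) ≤ 1 + 2 * x / Real.log z := by
  obtain ⟨z1, hz1⟩ := QA_all n hn 1 1 one_pos one_pos
  obtain ⟨Y0, hY0⟩ := eventually_atTop.1 (pi_real 1 one_pos)
  refine ⟨max (max 2 z1) Y0, fun z hz x hx0 hx => ?_⟩
  have a1 : 2 ≤ z := (le_max_left _ _).trans ((le_max_left _ _).trans hz)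
  have a2 : z1 ≤ z := (le_max_right _ _).trans ((le_max_left _ _).trans hz)
  have a3 : Y0 ≤ z := (le_max_right _ _).trans hz
  have hz0 : 0 < z := by linarith
  have hlz : 0 < Real.log z := Real.log_pos (by linarith)
  rcases le_or_gt x z with h1 | h1
  · have h2 : RR x z ⊆ {1} := by
      intro m hm
      have hm1 := mem_RR.1 hm
      rw [Finset.mem_singleton]
      by_contra hne
      have h3 := hm1.2 _ (Nat.minFac_prime hne) (Nat.minFac_dvd m)
      have h4 : m.minFac ≤ m := Nat.minFac_le hm1.1.1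
      have h5 : ((m.minFac : ℕ) : ℝ) ≤ m := by exact_mod_cast h4
      have h6 : (m : ℝ) ≤ x := le_of_mem hx0 hm
      linarith
    have h3 : (RR x z).card ≤ 1 := by
      have := Finset.card_le_card h2
      rwa [Finset.card_singleton] at this
    have h4 : ((RR x z).card : ℝ) ≤ 1 := by exact_mod_cast h3
    have h5 : 0 ≤ 2 * x / Real.log z := by positivity
    linarith
  have hx1 : 1 < x := by linarith
  have hlx := Real.log_pos hx1
  have hlzx : Real.log z ≤ Real.log x := Real.log_le_log hz0 h1.le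
  rcases le_or_gt x (z ^ 2) with h2 | h2
  · have h3 := RR_prime_up x z (by linarith) hx0 h2
    have h4 := (hY0 x (a3.trans h1.le)).2
    have h5 : (Nat.primeCounting ⌊x⌋₊ : ℝ) ≤ 2 * x / Real.log z := by
      rw [le_div_iff₀ hlz]
      calc (Nat.primeCounting ⌊x⌋₊ : ℝ) * Real.log z ≤ (Nat.primeCounting ⌊x⌋₊ : ℝ) * Real.log x := by gcongr
        _ ≤ (1 + 1) * x := h4
        _ = 2 * x := by ring
    linarith
  · have h3 := hz1 z a2 x (by
      have : z ^ (1 + 1 : ℝ) = z ^ 2 := by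
        rw [← Real.rpow_natCast]; norm_num
      rw [this]
      exact h2.le) hx
    have hu : 1 ≤ Real.log x / Real.log z := by rw [le_div_iff₀ hlz, one_mul]; exact hlzx
    have h4 : WW (Real.log x / Real.log z) ≤ Real.log x / Real.log z := by
      unfold WW
      exact mul_le_of_le_one_right (by linarith) (om_le _ hu)
    have h5 := (abs_le.1 h3).2
    have h6 : ((RR x z).card : ℝ) * Real.log x ≤ x * (Real.log x / Real.log z + 1) := by
      have : x * WW (Real.log x / Real.log z) ≤ x * (Real.log x / Real.log z) := by gcongr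
      linarith
    have h7 : ((RR x z).card : ℝ) * Real.log x ≤ (2 * x / Real.log z) * Real.log x := by
      refine h6.trans ?_
      calc x * (Real.log x / Real.log z + 1) ≤ x * (Real.log x / Real.log z + Real.log x / Real.log z) := by gcongr
        _ = _ := by ring
    have h8 := le_of_mul_le_mul_right h7 hlx
    linarith

theorem GG_le_RR (z : ℕ) (S : Finset ℕ) (T : ℕ) : ((GG z S T).card : ℝ) ≤ (RR T z).card + ∑ q ∈ S, ((T / q : ℕ) : ℝ) := by
  classical
  have h1 : GG z S T ⊆ RR T z ∪ S.biUnion (fun q => (Icc 1 T).filter (fun h => q ∣ h)) := by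
    intro m hm
    have hm1 := mem_GG.1 hm
    rw [Finset.mem_union]
    by_cases hS : ∃ q ∈ S, q ∣ m
    · obtain ⟨q, hq, hd⟩ := hS
      right
      exact Finset.mem_biUnion.2 ⟨q, hq, Finset.mem_filter.2 ⟨Finset.mem_Icc.2 hm1.1, hd⟩⟩
    · left
      push Not at hS
      refine mem_RR.2 ⟨⟨hm1.1.1, by rw [Nat.floor_natCast]; exact hm1.1.2⟩, fun p hp hd => ?_⟩
      have := (hm1.2 p hp hd).resolve_right (fun h => hS p h hd)
      exact_mod_cast this
  have h2 : (GG z S T).card ≤ (RR T z).card + ∑ q ∈ S, T / q := by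
    refine (Finset.card_le_card h1).trans ((Finset.card_union_le _ _).trans ?_)
    apply Nat.add_le_add_left
    refine Finset.card_biUnion_le.trans (Finset.sum_le_sum fun p hp => ?_)
    rw [show (Icc 1 T) = Ioc 0 T from rfl, Nat.Ioc_filter_dvd_card_eq_div]
  exact_mod_cast h2

/-- the two bounds for `GG` -/
theorem GG_two (t θ δ : ℝ) (hθ : 0 < θ) (hθt : θ < t) (hδ : 0 < δ) (Yf : ℝ → ℕ)
    (hY : Tendsto (fun L : ℝ => (Yf L : ℝ) / L ^ t) atTop (𝓝 1)) :
    ∀ᶠ L : ℝ in atTop, ∀ S : Finset ℕ, ∑ q ∈ S, (1 : ℝ) / q ≤ 6 / (Real.log L) ^ 2 →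
      (∀ T : ℕ, T ≤ Yf L → ((GG ⌊1 / 4 * L ^ θ⌋₊ S T).card : ℝ) ≤ 1 + (4 / θ + 6) / Real.log L * T) ∧
      ((GG ⌊1 / 4 * L ^ θ⌋₊ S (Yf L)).card : ℝ) ≤ (om (t / θ) / θ + δ) * (L ^ t / Real.log L) := by
  have ht : 0 < t := by linarith
  obtain ⟨n, hn⟩ := exists_nat_gt (max 2 (t / θ))
  have hn1 : t / θ < n := (le_max_right _ _).trans_lt hn
  have hn2 : 2 ≤ n := by
    have : (2 : ℝ) < n := (le_max_left _ _).trans_lt hn
    have : (2 : ℕ) < n := by exact_mod_cast this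
    omega
  obtain ⟨z0, hz0⟩ := RR_crude n hn2
  have hlogY := log_ratio t Yf hY
  have hlogz := tlogfloor (1 / 4) θ (by norm_num) hθ
  have hq : Tendsto (fun L : ℝ => Real.log (Yf L) / Real.log (⌊1 / 4 * L ^ θ⌋₊ : ℕ)) atTop (𝓝 (t / θ)) := by
    have h1 := hlogY.div hlogz hθ.ne'
    refine h1.congr' ?_
    filter_upwards [eventually_gt_atTop (1 : ℝ)] with L hL
    have := Real.log_pos hL
    simp only [Pi.div_apply]
    field_simp
  have e0 : ∀ᶠ L : ℝ in atTop, z0 ≤ ((⌊1 / 4 * L ^ θ⌋₊ : ℕ) : ℝ) := by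
    filter_upwards [(tendsto_z' θ hθ).eventually_ge_atTop ⌈z0⌉₊] with L hL
    exact (Nat.le_ceil z0).trans (by exact_mod_cast hL)
  have h2 := hY.eventually (Ioo_mem_nhds (show (1 / 2 : ℝ) < 1 by norm_num) (show (1 : ℝ) < 2 by norm_num))
  have e1 := Real.tendsto_log_atTop.eventually_ge_atTop (max 1 (48 / δ))
  filter_upwards [RR_asym t θ (δ / 4) hθ hθt (by positivity) Yf hY, hlogz.eventually_const_lt (show θ / 2 < θ by linarith),
    hq.eventually_lt_const hn1, e0, (tendsto_z' θ hθ).eventually_ge_atTop 2, h2, e1, eventually_gt_atTop (1 : ℝ),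
    (tendsto_rpow_atTop ht).eventually_ge_atTop 4]
    with L c1 c2 c3 c4 c5 c8 c9 c10 c11
  intro S hS
  have hL0 : 0 < L := by linarith
  have hlog := Real.log_pos c10
  have hlog1 : 1 ≤ Real.log L := (le_max_left _ _).trans c9
  have hlog2 : 48 / δ ≤ Real.log L := (le_max_right _ _).trans c9
  have hLt : 0 < L ^ t := by positivity
  obtain ⟨c81, c82⟩ := c8
  rw [lt_div_iff₀ hLt] at c81
  rw [div_lt_iff₀ hLt] at c82
  set z := ⌊1 / 4 * L ^ θ⌋₊ with hz
  have hz2 : (2 : ℝ) ≤ z := by exact_mod_cast c5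
  have hlz : 0 < Real.log z := Real.log_pos (by linarith)
  have hY2 : (2 : ℝ) ≤ Yf L := by linarith
  set ℓ := Real.log L with hℓ
  rw [lt_div_iff₀ hlog] at c2
  rw [div_lt_iff₀ hlz] at c3
  have hSsum : ∀ T : ℕ, ∑ q ∈ S, ((T / q : ℕ) : ℝ) ≤ 6 / ℓ ^ 2 * T := by
    intro T
    calc ∑ q ∈ S, ((T / q : ℕ) : ℝ) ≤ ∑ q ∈ S, (T : ℝ) * (1 / q) := by
          apply Finset.sum_le_sum
          intro q _
          refine Nat.cast_div_le.trans ?_
          rw [mul_one_div]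
      _ = T * ∑ q ∈ S, (1 : ℝ) / q := by rw [Finset.mul_sum]
      _ ≤ T * (6 / ℓ ^ 2) := by gcongr
      _ = _ := by ring
  constructor
  · intro T hT
    have g1 := GG_le_RR z S T
    have g3 := hSsum T
    have g4 := hz0 z c4 T (Nat.cast_nonneg _) (by
      have h5 : (T : ℝ) ≤ Yf L := by exact_mod_cast hT
      refine h5.trans ?_
      rw [← Real.log_le_log_iff (by linarith) (by positivity), Real.log_rpow (by linarith)]
      exact c3.le)
    have g5 : 6 / ℓ ^ 2 * T ≤ 6 / ℓ * T := by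
      apply mul_le_mul_of_nonneg_right _ (Nat.cast_nonneg _)
      apply div_le_div_of_nonneg_left (by norm_num) hlog
      nlinarith
    have g6 : 2 * (T : ℝ) / Real.log z ≤ 4 / θ / ℓ * T := by
      calc 2 * (T : ℝ) / Real.log z ≤ 2 * (T : ℝ) / (θ / 2 * ℓ) := by gcongr
        _ = _ := by field_simp; ring
    calc ((GG z S T).card : ℝ) ≤ 1 + 4 / θ / ℓ * T + 6 / ℓ * T := by linarith
      _ = _ := by ring
  · have g1 := GG_le_RR z S (Yf L)
    have g3 := hSsum (Yf L)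
    have g5 : 6 / ℓ ^ 2 * (Yf L : ℝ) ≤ δ / 4 * (L ^ t / ℓ) := by
      rw [div_le_iff₀ hδ] at hlog2
      calc 6 / ℓ ^ 2 * (Yf L : ℝ) ≤ 6 / ℓ ^ 2 * (2 * L ^ t) := by gcongr
        _ = 12 / ℓ * (L ^ t / ℓ) := by field_simp; ring
        _ ≤ δ / 4 * (L ^ t / ℓ) := by
            apply mul_le_mul_of_nonneg_right _ (by positivity)
            rw [div_le_iff₀ hlog]
            linarith
    have g6 := c1.2
    have g7 : 0 ≤ δ / 4 * (L ^ t / ℓ) := by positivity
    linarith only [g1, g3, g5, g6, g7]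

/-- the survivors, upper bound -/
theorem VV_up (t θ δ : ℝ) (hθ : 0 < θ) (hθ1 : θ < 1) (hθt : θ < t) (hδ : 0 < δ) (Yf : ℝ → ℕ)
    (hY : Tendsto (fun L : ℝ => (Yf L : ℝ) / L ^ t) atTop (𝓝 1)) : ∃ Z0 : ℕ, ∀ Z : ℕ, Z0 ≤ Z → ∀ᶠ X : ℝ in atTop,
    ∀ (ps : ℕ) (S : Finset ℕ), GoodP Z ps → GoodS X S →
      (VV (WD X (DD θ (Real.log X)) S ps) 0 (Yf (Real.log X)) : ℝ) + 80 ≤
        (om (t / θ) / θ + δ) * ((Real.log X) ^ t / Real.log (Real.log X)) := by
  have ht : 0 < t := by linarith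
  set C : ℝ := 4 / θ + 6 with hC
  have hC0 : 0 < C := by positivity
  refine ⟨⌈16 * C / δ⌉₊ + 1, fun Z hZ => ?_⟩
  have h2 := hY.eventually_lt_const (show (1 : ℝ) < 2 by norm_num)
  have ev := ((GG_two t θ (δ / 4) hθ hθt (by positivity) Yf hY).and (natlog_ev t (δ / 4) ht (by positivity) Yf hY)).and
    ((h2.and (DD_ev θ hθ1)).and (eventually_gt_atTop (1 : ℝ)))
  filter_upwards [Real.tendsto_log_atTop.eventually ev, eventually_ge_atTop (1 : ℝ)] with X hX hX1
  obtain ⟨⟨c1, c2⟩, ⟨c3, c4⟩, c5⟩ := hX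
  intro ps S hps hS
  have hS2 := hS.2
  set L := Real.log X with hL
  have hL0 : 0 < L := by linarith
  have hlog := Real.log_pos c5
  have hLt : 0 < L ^ t := by positivity
  rw [div_lt_iff₀ hLt] at c3
  have hfl := floor_eq (θ := θ) hL0
  obtain ⟨d1, d2⟩ := c1 S hS2
  set z := ⌊1 / 4 * L ^ θ⌋₊ with hz
  set Y := Yf L with hYdef
  set ℓ := Real.log L with hℓ
  have g6 : (VV (WD X (DD θ L) S ps) 0 Y : ℝ) ≤ (HH z S ps Y).card := by
    have := VV_zero_HH (DD θ L) c4 X hX1 S ps Y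
    rw [← hL, hfl] at this
    exact_mod_cast this
  have g0 : (0 : ℝ) ≤ Nat.log 2 Y := Nat.cast_nonneg _
  rcases hps with rfl | ⟨hps, hpZ⟩
  · have g7 : ((HH z S 1 Y).card : ℝ) ≤ (GG z S Y).card := by exact_mod_cast Finset.card_le_card (HH_one z S Y)
    have g8 : 0 ≤ δ / 2 * (L ^ t / ℓ) := by positivity
    linarith only [g6, g7, g0, d2, c2, g8]
  · have g7 : ((HH z S ps Y).card : ℝ) ≤ (GG z S Y).card + (HH z S ps (Y / ps)).card := by
      exact_mod_cast HH_rec z S ps Y hps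
    have g8 := HH_bound z S ps Y hps (C / ℓ) (by positivity) d1 (Y / ps) (Nat.div_le_self _ _)
    have g9 : (Nat.log 2 (Y / ps) : ℝ) ≤ Nat.log 2 Y := by
      exact_mod_cast Nat.log_mono_right (Nat.div_le_self _ _)
    have g10 : 2 * (C / ℓ) * ((Y / ps : ℕ) : ℝ) ≤ δ / 4 * (L ^ t / ℓ) := by
      have g11 : ((Y / ps : ℕ) : ℝ) ≤ Y / ps := Nat.cast_div_le
      have g12 : 16 * C / δ ≤ ps := by
        refine (Nat.le_ceil _).trans ?_
        have : ⌈16 * C / δ⌉₊ ≤ ps := by omega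
        exact_mod_cast this
      have g13 : (0 : ℝ) < ps := by exact_mod_cast hps.pos
      rw [div_le_iff₀ hδ] at g12
      calc 2 * (C / ℓ) * ((Y / ps : ℕ) : ℝ) ≤ 2 * (C / ℓ) * ((2 * L ^ t) / ps) := by
            have : (Y : ℝ) / ps ≤ (2 * L ^ t) / ps := by gcongr
            have := g11.trans this
            gcongr
        _ = 4 * C / ps * (L ^ t / ℓ) := by field_simp; ring
        _ ≤ δ / 4 * (L ^ t / ℓ) := by
            apply mul_le_mul_of_nonneg_right _ (by positivity)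
            rw [div_le_iff₀ g13]
            linarith
    have g14 : 0 ≤ δ / 4 * (L ^ t / ℓ) := by positivity
    linarith only [g6, g7, g8, g9, g10, g0, d2, c2, g14]

/-- the survivors, lower bound -/
theorem VV_ge {X D : ℝ} (hD : 1000 ≤ D) (hX : 1 ≤ X) (S : Finset ℕ) (ps Y z : ℕ) (hz : z = ⌊Real.log X / D⌋₊) :
    (RR Y z).card ≤ VV (WD X D S ps) 0 Y := by
  classical
  unfold VV
  apply Finset.card_le_card
  intro h hh
  have h1 := mem_RR.1 hh
  rw [Nat.floor_natCast] at h1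
  refine Finset.mem_filter.2 ⟨Finset.mem_Icc.2 h1.1, ?_⟩
  rw [zero_add]
  unfold WD
  apply Nat.Coprime.prod_right
  intro q hq
  have hq2 := (mem_PD hD hX).1 hq
  rw [Nat.coprime_comm, Nat.Prime.coprime_iff_not_dvd hq2.2.1]
  intro hd
  have h2 := h1.2 q hq2.2.1 hd
  have h3 : z < q := by exact_mod_cast h2
  rw [hz] at h3
  omega

theorem VV_dn (t θ δ : ℝ) (hθ : 0 < θ) (hθ1 : θ < 1) (hθt : θ < t) (hδ : 0 < δ) (Yf : ℝ → ℕ)
    (hY : Tendsto (fun L : ℝ => (Yf L : ℝ) / L ^ t) atTop (𝓝 1)) : ∀ᶠ X : ℝ in atTop,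
    ∀ (ps : ℕ) (S : Finset ℕ),
      (om (t / θ) / θ - δ) * ((Real.log X) ^ t / Real.log (Real.log X)) ≤
      (VV (WD X (DD θ (Real.log X)) S ps) 0 (Yf (Real.log X)) : ℝ) - 80 := by
  have ht : 0 < t := by linarith
  have ev := ((RR_asym t θ (δ / 2) hθ hθt (by positivity) Yf hY).and (DD_ev θ hθ1)).and
      ((ev_main 0 t 80 (δ / 2) ht (by norm_num) (by positivity)).and (eventually_gt_atTop (1 : ℝ)))
  filter_upwards [Real.tendsto_log_atTop.eventually ev, eventually_ge_atTop (1 : ℝ)] with X hX hX1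
  obtain ⟨⟨c1, c4⟩, c5, c7⟩ := hX
  intro ps S
  set L := Real.log X with hL
  have hL0 : 0 < L := by linarith
  have hlog := Real.log_pos c7
  have hfl := floor_eq (θ := θ) hL0
  rw [Real.rpow_zero, mul_one] at c5
  have d1 : ((RR (Yf L) (⌊1 / 4 * L ^ θ⌋₊ : ℕ)).card : ℝ) ≤ (VV (WD X (DD θ L) S ps) 0 (Yf L) : ℝ) := by
    have := VV_ge (X := X) c4 hX1 S ps (Yf L) ⌊1 / 4 * L ^ θ⌋₊ (by rw [← hL, hfl])
    exact_mod_cast this
  have d2 := c1.1
  linarith only [c5, d1, d2]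

/-- the limit of the relative mean of the rows -/
noncomputable def ww (t θ : ℝ) : ℝ := Real.exp Real.eulerMascheroniConstant * om (t / θ)

theorem side (t θ δ : ℝ) (hθ : 0 < θ) (hθ1 : θ < 1) (hθt : θ < t) (hδ : 0 < δ) (Yf : ℝ → ℕ)
    (hY : Tendsto (fun L : ℝ => (Yf L : ℝ) / L ^ t) atTop (𝓝 1)) : ∃ Z : ℕ, ∀ᶠ X : ℝ in atTop,
    ∀ (ps : ℕ) (S : Finset ℕ), GoodP Z ps → GoodS X S →
      ((VV (WD X (DD θ (Real.log X)) S ps) 0 (Yf (Real.log X)) : ℝ) + 80) / BE (PD X (DD θ (Real.log X)) S ps) ≤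
        (ww t θ + δ) * (Real.log X) ^ t ∧
      (ww t θ - δ) * (Real.log X) ^ t ≤
      ((VV (WD X (DD θ (Real.log X)) S ps) 0 (Yf (Real.log X)) : ℝ) - 80) / BE (PD X (DD θ (Real.log X)) S ps) := by
  have ht : 0 < t := by linarith
  set E := Real.exp Real.eulerMascheroniConstant * θ with hE
  have hE0 : 0 < E := by positivity
  set c := om (t / θ) / θ with hc
  have hc0 : 0 < c := by
    have := om_ge (t / θ) (by rw [le_div_iff₀ hθ]; linarith)
    have h2 : 0 < om (t / θ) := by linarith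
    positivity
  have hw : ww t θ = E * c := by unfold ww; rw [hE, hc]; field_simp
  -- the small parameter
  obtain ⟨x, hx0, hx1, hx2⟩ := small_lt (fun x => (E + x) * (c + x)) (by fun_prop) (E * c + δ) (min 1 (min E c))
    (lt_min one_pos (lt_min hE0 hc0)) (by simp only [add_zero]; linarith)
  obtain ⟨v, hv0, hv1, hv2⟩ := small_gt (fun x => (1 - x) * (E - x) * (c - x)) (by fun_prop) (E * c - δ) (min 1 (min E c))
    (lt_min one_pos (lt_min hE0 hc0)) (by simp only [sub_zero, one_mul]; linarith)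
  have v1 : v < 1 := hv1.trans_le (min_le_left _ _)
  have v2 : v < E := hv1.trans_le ((min_le_right _ _).trans (min_le_left _ _))
  have v3 : v < c := hv1.trans_le ((min_le_right _ _).trans (min_le_right _ _))
  obtain ⟨Z0, hZ0⟩ := VV_up t θ x hθ hθ1 hθt hx0 Yf hY
  set Z : ℕ := max Z0 (⌈2 / v⌉₊ + 1) with hZ
  refine ⟨Z, ?_⟩
  have hZv : 1 / (Z : ℝ) ≤ v / 2 := by
    have h1 : 2 / v ≤ Z := by
      refine (Nat.le_ceil _).trans ?_
      have : ⌈2 / v⌉₊ ≤ Z := by omega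
      exact_mod_cast this
    have h2 : (0 : ℝ) < Z := lt_of_lt_of_le (by positivity) h1
    rw [div_le_iff₀ hv0] at h1
    rw [div_le_iff₀ h2]
    linarith
  have hQ := (QQ_lim θ hθ).eventually (Ioo_mem_nhds (show E - v < E by linarith) (show E < E + x by linarith))
  have e1 := Real.tendsto_log_atTop.eventually_ge_atTop (max 1 (12 / v))
  have ev := (hQ.and (DD_ev θ hθ1)).and (e1.and (eventually_gt_atTop (1 : ℝ)))
  filter_upwards [hZ0 Z (le_max_left _ _), VV_dn t θ v hθ hθ1 hθt hv0 Yf hY, Real.tendsto_log_atTop.eventually ev,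
    eventually_ge_atTop (1 : ℝ)] with X g1 g2 g3 hX1
  obtain ⟨⟨⟨q1, q2⟩, g4⟩, g5, g6⟩ := g3
  intro ps S hps hS
  have h1 := g1 ps S hps hS
  have h2 := g2 ps S
  have hS2 := hS.2
  set L := Real.log X with hL
  have hL0 : 0 < L := by linarith
  have hlog := Real.log_pos g6
  have hlog1 : 1 ≤ Real.log L := (le_max_left _ _).trans g5
  have hlog2 : 12 / v ≤ Real.log L := (le_max_right _ _).trans g5
  have hfl := floor_eq (θ := θ) hL0
  have hB0 : 0 < BE (PD X (DD θ L) S ps) := BE_pos (fun p hp => PD_prime hp)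
  have hQ0 := QQ_pos ⌊1 / 4 * L ^ θ⌋₊
  set z := ⌊1 / 4 * L ^ θ⌋₊ with hz
  set B := BE (PD X (DD θ L) S ps) with hB
  rw [lt_div_iff₀ hlog] at q1
  rw [div_lt_iff₀ hlog] at q2
  have hLt : 0 < L ^ t := by positivity
  constructor
  · have h3 : B⁻¹ ≤ (E + x) * Real.log L := by
      have h5 := QQ_le_BE (DD θ L) g4 X hX1 S ps
      rw [← hL, hfl] at h5
      exact (inv_anti₀ hQ0 h5).trans q2.le
    calc ((VV (WD X (DD θ L) S ps) 0 (Yf L) : ℝ) + 80) / B
        = ((VV (WD X (DD θ L) S ps) 0 (Yf L) : ℝ) + 80) * B⁻¹ := by rw [div_eq_mul_inv]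
      _ ≤ ((c + x) * (L ^ t / Real.log L)) * ((E + x) * Real.log L) := by
          apply mul_le_mul h1 h3 (by positivity) (by positivity)
      _ = ((E + x) * (c + x)) * L ^ t := by field_simp
      _ ≤ _ := by
          rw [hw]
          exact mul_le_mul_of_nonneg_right hx2.le hLt.le
  · have h3 : (1 - v) * (QQ z)⁻¹ ≤ B⁻¹ := by
      apply BE_le (Z := Z) g4 hX1 S ps z (by rw [← hL, hfl]) hps (by omega)
      have h4 : 6 / (Real.log L) ^ 2 ≤ v / 2 := by
        rw [div_le_iff₀ (by positivity)]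
        rw [div_le_iff₀ hv0] at hlog2
        nlinarith only [hlog1, hlog2, hv0]
      linarith
    have h4 : (1 - v) * ((E - v) * Real.log L) ≤ B⁻¹ := by
      refine le_trans ?_ h3
      exact mul_le_mul_of_nonneg_left q1.le (by linarith)
    have h5 : 0 ≤ (c - v) * (L ^ t / Real.log L) := by
      have : 0 ≤ c - v := by linarith
      positivity
    calc (ww t θ - δ) * L ^ t ≤ ((1 - v) * (E - v) * (c - v)) * L ^ t := by
          rw [hw]
          exact mul_le_mul_of_nonneg_right hv2.le hLt.le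
      _ = ((c - v) * (L ^ t / Real.log L)) * ((1 - v) * ((E - v) * Real.log L)) := by field_simp
      _ ≤ ((VV (WD X (DD θ L) S ps) 0 (Yf L) : ℝ) - 80) * B⁻¹ := by
          apply mul_le_mul h2 h4 _ (h5.trans h2)
          have a1 : 0 ≤ 1 - v := by linarith
          have a2 : 0 ≤ E - v := by linarith
          positivity
      _ = _ := by rw [div_eq_mul_inv]

end Pool.Agent.R529.BU
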