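import Pool.Agent.R529.BU.Main
import Pool.Agent.R529.BU.Lim

/-!
Intervals with many primes that start at a prime.
-/

set_option autoImplicit false

open Finset Filter Topology
open Pool.Agent.R529.LD (small_lt small_gt ev_rpow cN ratio_one)

namespace Pool.Agent.R529.BU

/-- the next prime -/
def nextp (n : ℕ) : ℕ := Nat.find (Nat.exists_infinite_primes (n + 1))

theorem nextp_spec (n : ℕ) : n + 1 ≤ nextp n ∧ (nextp n).Prime := Nat.find_spec (Nat.exists_infinite_primes (n + 1))

theorem nextp_le (n q : ℕ) (h : n + 1 ≤ q) (hq : q.Prime) : nextp n ≤ q :=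
  Nat.find_min' (Nat.exists_infinite_primes (n + 1)) ⟨h, hq⟩

theorem pi_nextp (n : ℕ) : Nat.primeCounting (nextp n) ≤ Nat.primeCounting n + 1 := by
  rw [Nat.primeCounting, Nat.primeCounting', Nat.count_eq_card_filter_range,
    Nat.primeCounting, Nat.primeCounting', Nat.count_eq_card_filter_range]
  calc ((range (nextp n + 1)).filter Nat.Prime).card ≤ (insert (nextp n) ((range (n + 1)).filter Nat.Prime)).card := by
        apply Finset.card_le_card
        intro q hq
        rw [Finset.mem_filter, Finset.mem_range] at hq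
        rw [Finset.mem_insert, Finset.mem_filter, Finset.mem_range]
        by_cases h : q < n + 1
        · exact Or.inr ⟨h, hq.2⟩
        · left
          have := nextp_le n q (by omega) hq.2
          omega
    _ ≤ _ := Finset.card_insert_le _ _

/-- a prime in the interval -/
theorem nextp_in (n m : ℕ) (h : Nat.primeCounting n < Nat.primeCounting m) : nextp n ≤ m := by
  by_contra hcon
  push Not at hcon
  have h1 : Nat.primeCounting m ≤ Nat.primeCounting n := by
    rw [Nat.primeCounting, Nat.primeCounting', Nat.count_eq_card_filter_range,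
      Nat.primeCounting, Nat.primeCounting', Nat.count_eq_card_filter_range]
    apply Finset.card_le_card
    intro q hq
    rw [Finset.mem_filter, Finset.mem_range] at hq ⊢
    refine ⟨?_, hq.2⟩
    by_contra h2
    have := nextp_le n q (by omega) hq.2
    omega
  omega

open Classical in
/-- the number of primes `p ≤ N` with at least `a (log p) ^ (t - 1)` primes in `(p, p + (log p) ^ t]` -/
noncomputable def cP (t : ℝ) (N : ℕ) (a : ℝ) : ℕ :=
  ((Icc 1 N).filter (fun p : ℕ => p.Prime ∧ a * (Real.log p) ^ (t - 1) ≤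
    (Nat.primeCounting ⌊(p : ℝ) + (Real.log p) ^ t⌋₊ : ℝ) - Nat.primeCounting p)).card

theorem cP_anti (t : ℝ) (N : ℕ) (a b : ℝ) (h : a ≤ b) : cP t N b ≤ cP t N a := by
  classical
  unfold cP
  apply Finset.card_le_card
  intro p hp
  rw [Finset.mem_filter] at hp ⊢
  refine ⟨hp.1, hp.2.1, le_trans ?_ hp.2.2⟩
  have h1 : 0 ≤ Real.log p := Real.log_natCast_nonneg p
  exact mul_le_mul_of_nonneg_right h (Real.rpow_nonneg h1 _)

theorem ev_cmp (t θ θ' C : ℝ) (hθ' : 0 < θ') (hθθ : θ' < θ) (hC : 0 < C) : ∀ᶠ L : ℝ in atTop,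
    C * (L ^ t + 2) * Real.exp (L ^ θ') ≤ Real.exp (L ^ θ) := by
  have hθ : 0 < θ := by linarith
  have h1 := isLittleO_rpow_exp_pos_mul_atTop (t / θ) (show (0 : ℝ) < 1 / 4 by norm_num)
  have h2 := (h1.comp_tendsto (tendsto_rpow_atTop hθ)).def one_pos
  have h3 : Tendsto (fun L : ℝ => Real.exp (1 / 4 * L ^ θ)) atTop atTop :=
    Real.tendsto_exp_atTop.comp ((tendsto_rpow_atTop hθ).const_mul_atTop (by norm_num))
  filter_upwards [h2, h3.eventually_ge_atTop (3 * C), ev_rpow θ' θ 2 hθθ, eventually_ge_atTop (1 : ℝ)] with L g1 g2 g3 g4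
  have hL0 : 0 < L := by linarith
  simp only [Function.comp] at g1
  have h5 : (L ^ θ) ^ (t / θ) = L ^ t := by
    rw [← Real.rpow_mul hL0.le]
    congr 1
    field_simp
  rw [h5, Real.norm_eq_abs, abs_of_nonneg (by positivity), Real.norm_eq_abs, abs_of_nonneg (Real.exp_pos _).le, one_mul] at g1
  have h6 : 1 ≤ Real.exp (1 / 4 * L ^ θ) := Real.one_le_exp (by positivity)
  have h7 : Real.exp (L ^ θ') ≤ Real.exp (1 / 4 * L ^ θ) * Real.exp (1 / 4 * L ^ θ) := by
    rw [← Real.exp_add]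
    apply Real.exp_le_exp.2
    linarith
  calc C * (L ^ t + 2) * Real.exp (L ^ θ')
      ≤ C * (Real.exp (1 / 4 * L ^ θ) + 2 * Real.exp (1 / 4 * L ^ θ)) *
        (Real.exp (1 / 4 * L ^ θ) * Real.exp (1 / 4 * L ^ θ)) := by
        gcongr
        linarith
    _ = (3 * C) * (Real.exp (1 / 4 * L ^ θ) * Real.exp (1 / 4 * L ^ θ) * Real.exp (1 / 4 * L ^ θ)) := by ring
    _ ≤ Real.exp (1 / 4 * L ^ θ) * (Real.exp (1 / 4 * L ^ θ) * Real.exp (1 / 4 * L ^ θ) * Real.exp (1 / 4 * L ^ θ)) := by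
        gcongr
    _ = Real.exp (L ^ θ) := by
        rw [← Real.exp_add, ← Real.exp_add, ← Real.exp_add]
        congr 1
        ring

theorem freq_prime (t θ ε : ℝ) (ht : 1 < t) (hθ : 0 < θ) (hθ1 : θ < 1) (hε : 0 < ε) :
    ∀ᶠ N : ℕ in atTop, (N : ℝ) * Real.exp (-((Real.log N) ^ θ)) ≤ cP t N (ww t θ - ε) := by
  classical
  have hw0 := ww_pos t θ hθ (by linarith)
  -- smaller `ε`
  set e : ℝ := min ε (ww t θ / 2) with he
  have he0 : 0 < e := by positivity
  have heε : e ≤ ε := min_le_left _ _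
  have hew : e ≤ ww t θ / 2 := min_le_right _ _
  suffices h : ∀ᶠ N : ℕ in atTop, (N : ℝ) * Real.exp (-((Real.log N) ^ θ)) ≤ cP t N (ww t θ - e) by
    filter_upwards [h] with N hN
    refine hN.trans ?_
    exact_mod_cast cP_anti t N _ _ (by linarith)
  -- smaller `θ`
  obtain ⟨x, hx0, hx1, hx2⟩ := small_gt (fun x => ww t (θ - x)) (by
      unfold ww
      apply ContinuousAt.mul continuousAt_const
      apply om_cont.continuousAt.comp
      apply ContinuousAt.div continuousAt_const (continuousAt_const.sub continuousAt_id)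
      simpa using hθ.ne') (ww t θ - e / 4) θ hθ (by simp only [sub_zero]; linarith)
  set θ' := θ - x with hθ'
  have hθ'0 : 0 < θ' := by linarith
  have hG := freq_high t θ' (e / 4) ht hθ'0 (by linarith) (by positivity)
  -- the comparison at the points of the set
  have hR : Tendsto (fun L : ℝ => (ww t θ - e) * ((L + Real.log 2) ^ (t - 1) / L ^ (t - 1)) + 1 / L ^ (t - 1)) atTop
      (𝓝 ((ww t θ - e) * 1 + 0)) := by
    apply Tendsto.add
    · exact (ratio_one (t - 1) (t - 1) (Real.log 2) rfl).const_mul _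
    · simp only [one_div]
      exact (tendsto_rpow_atTop (by linarith)).inv_tendsto_atTop
  have hR2 := hR.eventually_lt_const (show (ww t θ - e) * 1 + 0 < ww t θ - e / 2 by linarith)
  obtain ⟨k, hk⟩ := exists_nat_gt t
  have hpow := ev_pow_le k
  have hlog : Tendsto (fun n : ℕ => Real.log n) atTop atTop := Real.tendsto_log_atTop.comp tendsto_natCast_atTop_atTop
  have evn := ((hlog.eventually hR2).and (tendsto_natCast_atTop_atTop.eventually hpow)).and
    ((hlog.eventually_ge_atTop 1).and (eventually_ge_atTop 3))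
  obtain ⟨n0, hn0⟩ := eventually_atTop.1 evn
  -- the number of points
  have hhalf : Tendsto (fun N : ℕ => N / 2) atTop atTop := Nat.tendsto_div_const_atTop (by norm_num)
  have hcmp := hlog.eventually (ev_cmp t θ θ' 6 hθ'0 (by linarith) (by norm_num))
  have hcmp2 := hlog.eventually (ev_cmp 0 1 θ' (6 * (n0 + 1)) hθ'0 (by linarith) (by positivity))
  filter_upwards [hhalf.eventually hG, hcmp, hcmp2, eventually_ge_atTop 6, hlog.eventually_ge_atTop 1] with N g1 g2 g3 g4 g5
  have hN6 : (6 : ℝ) ≤ N := by exact_mod_cast g4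
  set M := N / 2 with hM
  have hM1 : (N : ℝ) / 3 ≤ M := by
    have h1 : N ≤ 2 * M + 1 := by omega
    have h2 : (N : ℝ) ≤ 2 * M + 1 := by exact_mod_cast h1
    linarith
  have hM2 : 2 * (M : ℝ) ≤ N := by
    have : 2 * M ≤ N := by omega
    exact_mod_cast this
  have hM0 : (0 : ℝ) < M := by linarith
  set L := Real.log N with hL
  have hML : Real.log M ≤ L := Real.log_le_log hM0 (by linarith)
  have hexpL : Real.exp L = N := Real.exp_log (by linarith)
  -- the set
  set G := ((Icc 1 M).filter (fun n : ℕ => (ww t θ' - e / 4) * (Real.log n) ^ (t - 1) ≤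
    (Nat.primeCounting ⌊(n : ℝ) + (Real.log n) ^ t⌋₊ : ℝ) - Nat.primeCounting n)) with hGdef
  have hGc : (M : ℝ) * Real.exp (-((Real.log M) ^ θ')) ≤ G.card := by
    have : cN t M (fun a b => (ww t θ' - e / 4) * b ≤ a) = G.card := by
      unfold cN
      rw [hGdef]
    rw [← this]
    exact g1
  set G' := G.filter (fun n => n0 ≤ n) with hG'
  have hGG : (G.card : ℝ) ≤ G'.card + n0 := by
    have h1 : G ⊆ G' ∪ Finset.range n0 := by
      intro n hn
      rw [Finset.mem_union, hG', Finset.mem_filter, Finset.mem_range]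
      by_cases h : n0 ≤ n
      · exact Or.inl ⟨hn, h⟩
      · right; omega
    have h2 := (Finset.card_le_card h1).trans (Finset.card_union_le _ _)
    rw [Finset.card_range] at h2
    exact_mod_cast h2
  -- properties of the points
  have hprop : ∀ n ∈ G', (nextp n : ℝ) ≤ n + (Real.log n) ^ t ∧ n < nextp n ∧ nextp n ≤ N ∧
      nextp n ∈ (Icc 1 N).filter (fun p : ℕ => p.Prime ∧ (ww t θ - e) * (Real.log p) ^ (t - 1) ≤
        (Nat.primeCounting ⌊(p : ℝ) + (Real.log p) ^ t⌋₊ : ℝ) - Nat.primeCounting p) := by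
    intro n hn
    rw [hG', Finset.mem_filter, hGdef, Finset.mem_filter, Finset.mem_Icc] at hn
    obtain ⟨⟨⟨q1, q2⟩, q3⟩, q4⟩ := hn
    obtain ⟨⟨r1, r2⟩, r3, r4⟩ := hn0 n q4
    have hn3 : (3 : ℝ) ≤ n := by exact_mod_cast r4
    set l := Real.log n with hl
    have hl0 : 0 < l := by linarith
    have hlt : 0 < l ^ (t - 1) := by positivity
    have e1 : (ww t θ - e) * (l + Real.log 2) ^ (t - 1) + 1 < (ww t θ - e / 2) * l ^ (t - 1) := by
      have : (ww t θ - e) * ((l + Real.log 2) ^ (t - 1) / l ^ (t - 1)) + 1 / l ^ (t - 1) =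
        ((ww t θ - e) * (l + Real.log 2) ^ (t - 1) + 1) / l ^ (t - 1) := by field_simp
      rw [this, div_lt_iff₀ hlt] at r1
      exact r1
    have e2 : (ww t θ - e / 2) * l ^ (t - 1) ≤ (ww t θ' - e / 4) * l ^ (t - 1) := by
      apply mul_le_mul_of_nonneg_right _ hlt.le
      linarith
    have hlog2 : 0 ≤ Real.log 2 := Real.log_nonneg (by norm_num)
    have hwe : 0 < ww t θ - e := by linarith
    have e3 : 0 ≤ (ww t θ - e) * (l + Real.log 2) ^ (t - 1) := by positivity
    have e4 : (Nat.primeCounting n : ℝ) < Nat.primeCounting ⌊(n : ℝ) + l ^ t⌋₊ := by linarith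
    have e5 : nextp n ≤ ⌊(n : ℝ) + l ^ t⌋₊ := nextp_in n _ (by exact_mod_cast e4)
    have hlt0 : 0 ≤ l ^ t := by positivity
    have e6 : (nextp n : ℝ) ≤ n + l ^ t := (Nat.cast_le.2 e5).trans (Nat.floor_le (by positivity))
    have e7 : l ^ t ≤ n / 2 := by
      calc l ^ t ≤ l ^ (k : ℝ) := Real.rpow_le_rpow_of_exponent_le r3 hk.le
        _ = l ^ k := Real.rpow_natCast _ _
        _ ≤ n / 2 := r2
    obtain ⟨s1, s2⟩ := nextp_spec n
    have e8 : nextp n ≤ N := by
      have h1 : (n : ℝ) ≤ M := by exact_mod_cast q2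
      have : (nextp n : ℝ) ≤ N := by linarith
      exact_mod_cast this
    refine ⟨e6, by omega, e8, Finset.mem_filter.2 ⟨Finset.mem_Icc.2 ⟨by omega, e8⟩, s2, ?_⟩⟩
    set p := nextp n with hp
    have hnp : (n : ℝ) ≤ p := by
      have : n ≤ p := by omega
      exact_mod_cast this
    have hlp1 : l ≤ Real.log p := Real.log_le_log (by linarith) hnp
    have hlp2 : Real.log p ≤ l + Real.log 2 := by
      rw [hl, ← Real.log_mul (by linarith) (by norm_num)]
      apply Real.log_le_log (by linarith)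
      linarith
    have e9 : (ww t θ - e) * (Real.log p) ^ (t - 1) ≤ (ww t θ - e) * (l + Real.log 2) ^ (t - 1) := by
      apply mul_le_mul_of_nonneg_left _ hwe.le
      exact Real.rpow_le_rpow (by linarith) hlp2 (by linarith)
    have e10 : (Nat.primeCounting ⌊(n : ℝ) + l ^ t⌋₊ : ℝ) ≤ Nat.primeCounting ⌊(p : ℝ) + (Real.log p) ^ t⌋₊ := by
      have h1 : ⌊(n : ℝ) + l ^ t⌋₊ ≤ ⌊(p : ℝ) + (Real.log p) ^ t⌋₊ := by
        apply Nat.floor_le_floor
        have := Real.rpow_le_rpow hl0.le hlp1 (show 0 ≤ t by linarith)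
        linarith
      exact_mod_cast Nat.monotone_primeCounting h1
    have e11 : (Nat.primeCounting p : ℝ) ≤ Nat.primeCounting n + 1 := by exact_mod_cast pi_nextp n
    linarith
  -- fibres
  have hfib : ∀ p ∈ G'.image nextp, (G'.filter (fun n => nextp n = p)).card ≤ ⌊L ^ t⌋₊ + 1 := by
    intro p _
    have h1 : G'.filter (fun n => nextp n = p) ⊆ Icc (p - ⌊L ^ t⌋₊) p := by
      intro n hn
      rw [Finset.mem_filter] at hn
      obtain ⟨hn1, hn2⟩ := hn
      obtain ⟨u1, u2, u3, -⟩ := hprop n hn1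
      rw [hn2] at u1 u2
      have hnG := Finset.mem_filter.1 hn1
      have hnG2 := Finset.mem_Icc.1 (Finset.mem_filter.1 hnG.1).1
      rw [Finset.mem_Icc]
      refine ⟨?_, u2.le⟩
      have h2 : (Real.log n) ^ t ≤ L ^ t := by
        apply Real.rpow_le_rpow (Real.log_natCast_nonneg n) _ (by linarith)
        apply Real.log_le_log (by exact_mod_cast hnG2.1)
        have : (n : ℝ) ≤ M := by exact_mod_cast hnG2.2
        linarith
      have h3 : ((p - n : ℕ) : ℝ) ≤ L ^ t := by
        rw [Nat.cast_sub u2.le]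
        linarith
      have h4 : p - n ≤ ⌊L ^ t⌋₊ := Nat.le_floor h3
      omega
    refine (Finset.card_le_card h1).trans ?_
    rw [Nat.card_Icc]
    omega
  have hcard := Finset.card_le_mul_card_image G' (⌊L ^ t⌋₊ + 1) hfib
  have himg : (G'.image nextp).card ≤ cP t N (ww t θ - e) := by
    unfold cP
    apply Finset.card_le_card
    intro p hp
    obtain ⟨n, hn, rfl⟩ := Finset.mem_image.1 hp
    exact (hprop n hn).2.2.2
  have hfin : (G'.card : ℝ) ≤ (L ^ t + 1) * cP t N (ww t θ - e) := by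
    have h1 : (G'.card : ℝ) ≤ (⌊L ^ t⌋₊ + 1) * (G'.image nextp).card := by exact_mod_cast hcard
    have h2 : ((G'.image nextp).card : ℝ) ≤ cP t N (ww t θ - e) := by exact_mod_cast himg
    have h3 : (⌊L ^ t⌋₊ : ℝ) ≤ L ^ t := Nat.floor_le (by positivity)
    calc (G'.card : ℝ) ≤ (⌊L ^ t⌋₊ + 1) * (G'.image nextp).card := h1
      _ ≤ (L ^ t + 1) * cP t N (ww t θ - e) := by gcongr
  -- the final computation
  rw [Real.rpow_zero, Real.rpow_one, hexpL] at g3
  have hexp1 : 0 < Real.exp (L ^ θ') := Real.exp_pos _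
  have hexp2 : 0 < Real.exp (L ^ θ) := Real.exp_pos _
  have k1 : (N : ℝ) / 3 * (Real.exp (L ^ θ'))⁻¹ ≤ G.card := by
    refine le_trans ?_ hGc
    rw [← Real.exp_neg]
    apply mul_le_mul hM1 _ (Real.exp_pos _).le hM0.le
    apply Real.exp_le_exp.2
    apply neg_le_neg
    exact Real.rpow_le_rpow (Real.log_natCast_nonneg M) hML hθ'0.le
  have k2 : (n0 : ℝ) ≤ (N : ℝ) / 6 * (Real.exp (L ^ θ'))⁻¹ := by
    rw [← div_eq_mul_inv, le_div_iff₀ hexp1, le_div_iff₀ (by norm_num)]
    have : 0 ≤ Real.exp (L ^ θ') := hexp1.le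
    nlinarith [mul_nonneg (Nat.cast_nonneg (α := ℝ) n0) this]
  have k3 : (N : ℝ) / 6 * (Real.exp (L ^ θ'))⁻¹ ≤ (L ^ t + 1) * cP t N (ww t θ - e) := by
    have : (N : ℝ) / 6 * (Real.exp (L ^ θ'))⁻¹ = (N : ℝ) / 3 * (Real.exp (L ^ θ'))⁻¹ - (N : ℝ) / 6 * (Real.exp (L ^ θ'))⁻¹ := by
      ring
    linarith
  have hLt : 0 < L ^ t := by positivity
  have k4 : (L ^ t + 1) * ((N : ℝ) * Real.exp (-(L ^ θ))) ≤ (N : ℝ) / 6 * (Real.exp (L ^ θ'))⁻¹ := by
    rw [Real.exp_neg, ← div_eq_mul_inv, ← div_eq_mul_inv, mul_div_assoc', div_le_div_iff₀ hexp2 hexp1]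
    have : (L ^ t + 1) * Real.exp (L ^ θ') * 6 ≤ Real.exp (L ^ θ) := by
      have h2 : (L ^ t + 1) * Real.exp (L ^ θ') * 6 ≤ 6 * (L ^ t + 2) * Real.exp (L ^ θ') := by nlinarith
      linarith
    have hN0 : (0 : ℝ) ≤ N / 6 := by positivity
    calc (L ^ t + 1) * N * Real.exp (L ^ θ') = N / 6 * ((L ^ t + 1) * Real.exp (L ^ θ') * 6) := by ring
      _ ≤ N / 6 * Real.exp (L ^ θ) := mul_le_mul_of_nonneg_left this hN0
  exact le_of_mul_le_mul_left (k4.trans k3) (by positivity)

end Pool.Agent.R529.BU
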