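import Pool.Agent.R529.BU.Asym

/-!
The induction step.
-/

set_option autoImplicit false

open Finset Filter Topology
open Pool.Agent.H510R2.Maier Pool.Agent.R529.LD

namespace Pool.Agent.R529.BU

theorem shift_int (a b : ℝ) : ∫ s in a..b, om (s - 1) = ∫ s in (a - 1)..(b - 1), om s :=
  intervalIntegral.integral_comp_sub_right (fun s => om s) 1

theorem QA_succ (n : ℕ) (hn : 2 ≤ n) (IH : QA n) : QA (n + 1) := by
  intro δ ε hδ hε
  have hn2 : (2 : ℝ) ≤ n := by exact_mod_cast hn
  set δ1 : ℝ := min 1 (ε / 48) with hδ1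
  have hδ10 : 0 < δ1 := by positivity
  have hδ11 : δ1 ≤ 1 := min_le_left _ _
  have hδ12 : δ1 ≤ ε / 48 := min_le_right _ _
  obtain ⟨z1, hz1⟩ := IH 1 (ε / 8) one_pos (by positivity)
  obtain ⟨z2, hz2⟩ := IH δ ε hδ hε
  obtain ⟨z3, hz3⟩ := term_bd n hn IH δ1 (ε / 16) hδ10 hδ11 (by positivity)
  have hgc : Continuous (fun s => om (s - 1)) := om_cont.comp (continuous_id.sub continuous_const)
  have e1 := sum_unif (fun s => om (s - 1)) hgc (fun s hs => by linarith [om_ge (s - 1) (by linarith)])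
    (fun s hs => om_le (s - 1) (by linarith)) n (ε / 8) hn2 (by positivity)
  have hone : ∀ s : ℝ, 2 ≤ s → |(fun _ : ℝ => (1 : ℝ)) s| ≤ 1 := fun s _ => by simp
  have e2 := sum_g (fun _ => (1 : ℝ)) continuous_const hone n (n + 1) 1 hn2 (by linarith) one_pos
  have e3 := sum_g (fun _ => (1 : ℝ)) continuous_const hone n (n + δ1) (ε / 48) hn2 (by linarith) (by positivity)
  obtain ⟨X1, hX1⟩ := eventually_atTop.1 ((e1.and e2).and (e3.and (eventually_gt_atTop (1 : ℝ))))
  obtain ⟨z4, hz4⟩ := eventually_atTop.1 (log_small 0 (ε / (16 * (n + 1))) one_pos (by positivity))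
  refine ⟨max (max (max 2 z1) (max z2 z3)) (max X1 z4), fun z hz x hx1 hx2 => ?_⟩
  have hz' := (le_max_left (max (max 2 z1) (max z2 z3)) (max X1 z4)).trans hz
  have hz'' := (le_max_right (max (max 2 z1) (max z2 z3)) (max X1 z4)).trans hz
  have a0 : 2 ≤ z := (le_max_left _ _).trans ((le_max_left _ _).trans hz')
  have a1 : z1 ≤ z := (le_max_right _ _).trans ((le_max_left _ _).trans hz')
  have a2 : z2 ≤ z := (le_max_left _ _).trans ((le_max_right _ _).trans hz')
  have a3 : z3 ≤ z := (le_max_right _ _).trans ((le_max_right _ _).trans hz')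
  have a4 : X1 ≤ z := (le_max_left _ _).trans hz''
  have a5 : z4 ≤ z := (le_max_right _ _).trans hz''
  rcases le_or_gt x (z ^ (n : ℝ)) with hle | hgt
  · exact hz2 z a2 x hx1 hle
  have hz0 : 0 < z := by linarith
  have hzx : z ≤ x := by
    refine le_trans ?_ hx1
    calc z = z ^ (1 : ℝ) := (Real.rpow_one z).symm
      _ ≤ z ^ (1 + δ) := Real.rpow_le_rpow_of_exponent_le (by linarith) (by linarith)
  obtain ⟨⟨h1, h2⟩, h3, h4⟩ := hX1 x (a4.trans hzx)
  have hx0 : 0 < x := by linarith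
  have hlz := Real.log_pos (show 1 < z by linarith)
  have hlx := Real.log_pos h4
  set u := Real.log x / Real.log z with hu
  have hu1 : (n : ℝ) ≤ u := by
    rw [hu, le_div_iff₀ hlz, ← Real.log_rpow hz0]
    exact Real.log_le_log (by positivity) hgt.le
  have hu2 : u ≤ n + 1 := by
    rw [hu, div_le_iff₀ hlz, ← Real.log_rpow hz0]
    have := Real.log_le_log hx0 hx2
    push_cast at this
    exact this
  have hu0 : 0 < u := by linarith
  have hzu : x ^ (1 / u) = z := by
    rw [Real.rpow_def_of_pos hx0]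
    have : Real.log x * (1 / u) = Real.log z := by rw [hu]; field_simp
    rw [this, Real.exp_log hz0]
  set z' := x ^ (1 / (n : ℝ)) with hz'def
  have hzz' : z ≤ z' := by
    rw [← hzu, hz'def]
    exact Real.rpow_le_rpow_of_exponent_le h4.le (one_div_le_one_div_of_le (by linarith) hu1)
  have hz'n : z' ^ (n : ℝ) = x := by
    rw [hz'def, ← Real.rpow_mul hx0.le, one_div_mul_cancel (by linarith), Real.rpow_one]
  have hlz' : Real.log z' = Real.log x / n := by
    rw [hz'def, Real.log_rpow hx0]; ring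
  -- the first term
  have t1 := hz1 z' (a1.trans hzz') x (by
    rw [← hz'n]
    apply Real.rpow_le_rpow_of_exponent_le (by linarith) (by linarith)) (by rw [hz'n])
  have hlz'2 : Real.log x / Real.log z' = n := by
    rw [hlz']; field_simp
  rw [hlz'2] at t1
  -- the sum
  set S := ∑ p ∈ PI ⌊z⌋₊ ⌊z'⌋₊, ((RR (x / p) p).card : ℝ) with hS
  have hcell : PI ⌊z⌋₊ ⌊z'⌋₊ = PI ⌊x ^ (1 / u)⌋₊ ⌊x ^ (1 / (n : ℝ))⌋₊ := by rw [hzu]
  have t2 : |S * Real.log x - x * AA x n u (fun s => om (s - 1))| ≤ x * AA x n u (gb (ε / 16) (n + δ1)) := by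
    rw [hS, hcell]
    unfold AA
    rw [Finset.sum_mul, Finset.mul_sum, ← Finset.sum_sub_distrib, Finset.mul_sum]
    refine (Finset.abs_sum_le_sum_abs _ _).trans (Finset.sum_le_sum fun p hp => ?_)
    obtain ⟨q1, q2, q3, q4⟩ := mem_cell h4 (by linarith) (by linarith) hp
    rw [← hcell, mem_PIf (by linarith) (by linarith)] at hp
    exact hz3 p (a3.trans hp.1.1.le) hp.2 x h4 q1 (by linarith)
  have t3 := AA_gb (x := x) (e := ε / 16) (δ := δ1) (u := u) n hn h4 (by positivity) hδ10.le hδ11 hu1 hu2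
  have t4 : AA x n (n + 1) (fun _ => 1) ≤ 2 := by
    have := (abs_le.1 h2).2
    rw [intervalIntegral.integral_const, smul_eq_mul] at this
    linarith
  have t5 : AA x n (n + δ1) (fun _ => 1) ≤ ε / 24 := by
    have := (abs_le.1 h3).2
    rw [intervalIntegral.integral_const, smul_eq_mul] at this
    linarith
  have t6 : x * AA x n u (gb (ε / 16) (n + δ1)) ≤ ε / 4 * x := by
    have : AA x n u (gb (ε / 16) (n + δ1)) ≤ ε / 4 := by
      have h5 : ε / 16 * AA x n (n + 1) (fun _ => 1) ≤ ε / 16 * 2 := by gcongr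
      linarith
    calc x * AA x n u (gb (ε / 16) (n + δ1)) ≤ x * (ε / 4) := by gcongr
      _ = _ := by ring
  -- the integral
  have t7 := h1 u hu1 hu2
  rw [shift_int, ← WW_sub u n hn2 (by linarith)] at t7
  -- the error of the identity
  have t8 : 2 * x / z * Real.log x ≤ ε / 8 * x := by
    have h5 := hz4 z a5
    rw [Real.rpow_zero, one_mul] at h5
    have h6 : Real.log x ≤ (n + 1) * Real.log z := by
      rw [hu, div_le_iff₀ hlz] at hu2
      exact hu2
    calc 2 * x / z * Real.log x ≤ 2 * x / z * ((n + 1) * Real.log z) := by gcongr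
      _ ≤ 2 * x / z * ((n + 1) * (ε / (16 * (n + 1)) * z)) := by gcongr
      _ = ε / 8 * x := by field_simp; ring
  have b1 := buch_up x z z' hx0.le (by linarith) hzz'
  have b2 := buch_lo x z z' hx0.le (by linarith) hzz'
  rw [← hS] at b1 b2
  have b1' := mul_le_mul_of_nonneg_right b1 hlx.le
  have b2' := mul_le_mul_of_nonneg_right b2 hlx.le
  have e7 : x * AA x n u (fun s => om (s - 1)) - x * (WW u - WW n) ≤ ε / 8 * x ∧
      -(ε / 8 * x) ≤ x * AA x n u (fun s => om (s - 1)) - x * (WW u - WW n) := by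
    rw [← mul_sub]
    obtain ⟨c1, c2⟩ := abs_le.1 t7
    constructor
    · nlinarith
    · nlinarith
  obtain ⟨d1, d2⟩ := abs_le.1 t1
  obtain ⟨d3, d4⟩ := abs_le.1 t2
  have hεx : 0 < ε * x := by positivity
  rw [abs_le]
  constructor
  · nlinarith only [b2', d1, d3, e7.2, t6, hεx]
  · nlinarith only [b1', d2, d4, e7.1, t6, t8, hεx]

theorem QA_all (n : ℕ) (hn : 2 ≤ n) : QA n := by
  induction n, hn using Nat.le_induction with
  | base => exact QA_two
  | succ n hn ih => exact QA_succ n hn ih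

end Pool.Agent.R529.BU
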